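import Pool.Agent.H46.GK.Prob
import Pool.Agent.H70.G.R6.N275.GP.Base

set_option autoImplicit false

/-!
# Project GK, KLB: the geometric part
-/

namespace Pool.Agent.H46.GK

open MeasureTheory Set Filter Topology Complex
open Pool.Agent.W780.PG (IsConvexPolygon region)
open Pool.Agent.R225.LP (PG hx mx pts gm hS_spec pts_finite pts_zero hx_nonneg)
open Pool.Agent.N275.GP
open scoped Real ENNReal

variable {n : ℕ} {p : Fin (n + 3) → ℂ}

theorem ip_eq (u v : ℂ) : Pool.Agent.R225.LP.ip u v = ip u v := rfl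

/-- the support number is at least that of a point -/
theorem le_hx {M : ℕ} (X : Fin M → ℂ) (m : ℕ) (hm : m < M) (u : ℂ) : ip u (gm X m) ≤ hx X u :=
  (hS_spec (pts_finite X) ⟨0, pts_zero (by omega) X⟩ u).2 _ ⟨m, hm, rfl⟩

theorem ip_near {u z w : ℂ} (hu : ‖u‖ = 1) {δ : ℝ} (h : ‖z - w‖ ≤ δ) : ip u w - δ ≤ ip u z := by
  have h1 := ip_le u (w - z)
  rw [ip_sub, hu, one_mul, norm_sub_rev] at h1
  linarith

/-- an interior point with margins -/
theorem inner (hp : IsConvexPolygon p) : ∃ (o : ℂ) (m : ℝ), 0 < m ∧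
    ∀ i, ip (nu p i) o + m ≤ co p i := by
  have hN : (0 : ℝ) < (n + 3 : ℕ) := by positivity
  set o : ℂ := (((n + 3 : ℕ) : ℝ)⁻¹ : ℝ) * ∑ k, p k with ho
  have h1 : ∀ i, ip (nu p i) o < co p i := by
    intro i
    rw [ho, ip_smul, ip_sum, inv_mul_lt_iff₀ hN]
    have h2 : ∑ k, ip (nu p i) (p k) < ∑ _k : Fin (n + 3), co p i := by
      refine Finset.sum_lt_sum (fun k _ => ip_le_co hp i k) ⟨i + 2, Finset.mem_univ _, ?_⟩
      refine ip_lt hp ?_ ?_
      · intro h
        have h3 : (2 : Fin (n + 3)) = 0 := by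
          have := congrArg (fun x => x - i) h
          simpa using this
        have h4 := congrArg Fin.val h3
        simp at h4
        rw [Nat.mod_eq_of_lt (by omega)] at h4
        omega
      · intro h
        have h3 : (2 : Fin (n + 3)) = 1 := add_left_cancel h
        have h4 := congrArg Fin.val h3
        simp at h4
        rw [Nat.mod_eq_of_lt (by omega)] at h4
        omega
    simpa using h2
  obtain ⟨i₀, -, hi⟩ := Finset.exists_min_image Finset.univ (fun i => co p i - ip (nu p i) o)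
    ⟨0, Finset.mem_univ _⟩
  exact ⟨o, co p i₀ - ip (nu p i₀) o, sub_pos.2 (h1 i₀), fun i => by
    have := hi i (Finset.mem_univ i); linarith⟩

/-- beyond three sides in all directions -/
theorem mem_kr (hnp : NP p) {d : Fin (n + 3) → ℝ} {a b c : Fin (n + 3)}
    (h : Pos3 (nu p a) (nu p b) (nu p c)) {z : ℂ} (ha : d a ≤ ip (nu p a) z)
    (hb : d b ≤ ip (nu p b) z) (hc : d c ≤ ip (nu p c) z) : z ∈ kr (nu p) d := by
  obtain ⟨h1, h2, h3⟩ := h
  refine ⟨⟨a, ha⟩, fun i _ => ?_⟩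
  by_contra hcon
  push Not at hcon
  have k1 := hcon a ha
  have k2 := hcon b hb
  have k3 := hcon c hc
  have key : cr (nu p b) (nu p c) * cr (nu p i) (nu p a) + cr (nu p c) (nu p a) *
      cr (nu p i) (nu p b) + cr (nu p a) (nu p b) * cr (nu p i) (nu p c) = 0 := by
    simp only [cr]; ring
  have m1 : cr (nu p b) (nu p c) * cr (nu p i) (nu p a) ≤ 0 :=
    mul_nonpos_of_nonneg_of_nonpos h2.le k1
  have m2 : cr (nu p c) (nu p a) * cr (nu p i) (nu p b) ≤ 0 :=
    mul_nonpos_of_nonneg_of_nonpos h3.le k2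
  have m3 : cr (nu p a) (nu p b) * cr (nu p i) (nu p c) ≤ 0 :=
    mul_nonpos_of_nonneg_of_nonpos h1.le k3
  have e1 : cr (nu p i) (nu p a) = 0 := by
    have : cr (nu p b) (nu p c) * cr (nu p i) (nu p a) = 0 := by linarith
    exact (mul_eq_zero.1 this).resolve_left h2.ne'
  have e2 : cr (nu p i) (nu p b) = 0 := by
    have : cr (nu p c) (nu p a) * cr (nu p i) (nu p b) = 0 := by linarith
    exact (mul_eq_zero.1 this).resolve_left h3.ne'
  have i1 : i = a := by
    by_contra hne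
    exact hnp i a hne e1
  have i2 : i = b := by
    by_contra hne
    exact hnp i b hne e2
  rw [← i1, ← i2, cr_self] at h1
  exact lt_irrefl _ h1

/-- the balls in the region -/
theorem ball_sub (hp : IsConvexPolygon p) (hn : ∀ i, ‖nu p i‖ = 1) (hnp : NP p)
    {a b c : Fin (n + 3)}
    (h : Pos3 (nu p a) (nu p b) (nu p c)) {x y z : ℂ} (hx' : x ∈ segment ℝ (p a) (p (a + 1)))
    (hy' : y ∈ segment ℝ (p b) (p (b + 1))) (hz' : z ∈ segment ℝ (p c) (p (c + 1))) {o : ℂ}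
    {m κ : ℝ} (hm : 0 < m) (ho : ∀ i, ip (nu p i) o + m ≤ co p i) (hκ : 0 < κ) {M q r : ℕ}
    (hq : q < M) (hr : r < M) {X : Fin M → ℂ}
    (hX : X ∈ Ee M q r (((1 + κ : ℝ) : ℂ) * (y - x)) (((1 + κ : ℝ) : ℂ) * (z - x)) (κ * m / 2)) :
    Metric.ball (x + (κ : ℂ) * (x - o)) (κ * m / 2) ⊆
      kr (nu p) (fun i => co p i - hx X (nu p i)) := by
  intro ζ hζ
  obtain ⟨X1, X2⟩ := hX
  have hζ' : ‖ζ - (x + (κ : ℂ) * (x - o))‖ ≤ κ * m / 2 := by
    rw [Metric.mem_ball, dist_eq_norm] at hζ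
    exact hζ.le
  have key : ∀ i, ip (nu p i) x + κ * (ip (nu p i) x - co p i) + κ * m / 2 ≤ ip (nu p i) ζ := by
    intro i
    have h1 := ip_near (hn i) hζ'
    rw [ip_add, ip_smul, ip_sub] at h1
    have h2 := mul_le_mul_of_nonneg_left (ho i) hκ.le
    nlinarith
  have cb := ip_seg hp b hy'
  have cc := ip_seg hp c hz'
  have ca := ip_seg hp a hx'
  refine mem_kr hnp h ?_ ?_ ?_
  · show co p a - hx X (nu p a) ≤ _
    have h1 := hx_nonneg (by omega : 0 < M) X (nu p a)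
    have h2 := key a
    rw [ca, sub_self, mul_zero] at h2
    have h3 : 0 < κ * m / 2 := by positivity
    linarith
  · show co p b - hx X (nu p b) ≤ _
    have h1 := le_hx X q hq (nu p b)
    have h2 := key b
    have h3 := ip_near (hn b) X1
    rw [ip_smul, ip_sub, cb] at h3
    nlinarith
  · show co p c - hx X (nu p c) ≤ _
    have h1 := le_hx X r hr (nu p c)
    have h2 := key c
    have h3 := ip_near (hn c) X2
    rw [ip_smul, ip_sub, cc] at h3
    nlinarith

/-- the lower bound -/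
theorem core (hp : IsConvexPolygon p) (hn : ∀ i, ‖nu p i‖ = 1) (hnp : NP p)
    (hbd : ∀ (C : ℝ), ∃ R : ℝ, ∀ d : Fin (n + 3) → ℝ, (∀ i, |d i| ≤ C) →
      kr (nu p) d ⊆ Metric.closedBall 0 R)
    (hint : ∀ (t : ℝ) (M : ℕ), 0 < t → 0 < M → Integrable (fun X : Fin M → ℂ =>
      (volume (kr (nu p) (fun i => co p i - hx X (nu p i)))).toReal) (PG (t / M) M))
    {a b c : Fin (n + 3)}
    (h : Pos3 (nu p a) (nu p b) (nu p c)) {x y z : ℂ} (hx' : x ∈ segment ℝ (p a) (p (a + 1)))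
    (hy' : y ∈ segment ℝ (p b) (p (b + 1))) (hz' : z ∈ segment ℝ (p c) (p (c + 1))) (e η : ℝ)
    (he : pr3 x y z = 2 * e) (hη : 0 < η) : ∃ C t₀ : ℝ, 0 < C ∧ 0 < t₀ ∧ ∀ t : ℝ, 0 < t →
    t < t₀ → ∀ᶠ M : ℕ in atTop, C * Real.exp (-((e ^ 2 + η) / t)) ≤
      ∫ X : Fin M → ℂ, (volume (kr (nu p) (fun i => co p i - hx X (nu p i)))).toReal
        ∂(PG (t / M) M) := by
  obtain ⟨o, m, hm, ho⟩ := inner hp
  set κ : ℝ := min 1 (η / (6 * e ^ 2 + 1)) with hκ
  have hκ0 : 0 < κ := lt_min one_pos (by positivity)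
  have hκ1 : κ ≤ 1 := min_le_left _ _
  have hκ2 : κ * (6 * e ^ 2 + 1) ≤ η := by
    have : κ ≤ η / (6 * e ^ 2 + 1) := min_le_right _ _
    rwa [le_div_iff₀ (by positivity)] at this
  obtain ⟨t₀, ht₀, hnear⟩ := near (((1 + κ : ℝ) : ℂ) * (y - x)) (((1 + κ : ℝ) : ℂ) * (z - x))
    (κ * m / 2) (2 * η) (by positivity) (by positivity)
  set α : ℝ := (volume (Metric.ball (x + (κ : ℂ) * (x - o)) (κ * m / 2))).toReal with hα
  have hα0 : 0 < α := by
    refine ENNReal.toReal_pos ?_ measure_ball_lt_top.ne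
    exact (Metric.measure_ball_pos volume _ (by positivity)).ne'
  have hL : ‖((1 + κ : ℝ) : ℂ) * (y - x)‖ + ‖((1 + κ : ℝ) : ℂ) * (z - x) -
      ((1 + κ : ℝ) : ℂ) * (y - x)‖ + ‖((1 + κ : ℝ) : ℂ) * (z - x)‖ = (1 + κ) * (2 * e) := by
    have e1 : ((1 + κ : ℝ) : ℂ) * (z - x) - ((1 + κ : ℝ) : ℂ) * (y - x) =
      ((1 + κ : ℝ) : ℂ) * (z - y) := by ring
    rw [e1, norm_mul, norm_mul, norm_mul, Complex.norm_real, Real.norm_eq_abs,
      abs_of_pos (by positivity), ← he, pr3, norm_sub_rev x y, norm_sub_rev y z]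
    ring
  rw [hL] at hnear
  refine ⟨α * (1 / 2), t₀, by positivity, ht₀, fun t ht htt => ?_⟩
  filter_upwards [hnear t ht htt, eventually_gt_atTop 0] with M hM hM0
  obtain ⟨q, r, hq, hr, hlow⟩ := hM
  have hs : 0 < t / M := by positivity
  have := Pool.Agent.R225.LP.PG_prob hs M
  set E := Ee M q r (((1 + κ : ℝ) : ℂ) * (y - x)) (((1 + κ : ℝ) : ℂ) * (z - x)) (κ * m / 2) with hE
  have hEm : MeasurableSet E := Ee_meas _ _ _ _ _ _
  have hge : ∀ X ∈ E, α ≤ (volume (kr (nu p) (fun i => co p i - hx X (nu p i)))).toReal := by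
    intro X hX
    have hsub := ball_sub hp hn hnp h hx' hy' hz' hm ho hκ0 hq hr hX
    obtain ⟨R, hR⟩ := hbd (∑ i, |co p i - hx X (nu p i)|)
    have hR' := hR (fun i => co p i - hx X (nu p i)) fun i =>
      Finset.single_le_sum (f := fun i => |co p i - hx X (nu p i)|) (fun _ _ => abs_nonneg _)
        (Finset.mem_univ i)
    have hfin : volume (kr (nu p) (fun i => co p i - hx X (nu p i))) ≠ ⊤ :=
      ne_top_of_le_ne_top (isCompact_closedBall (0 : ℂ) R).measure_lt_top.ne (measure_mono hR')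
    exact ENNReal.toReal_mono hfin (measure_mono hsub)
  have h1 : ∫ X : Fin M → ℂ, E.indicator (fun _ => α) X ∂(PG (t / M) M) ≤
      ∫ X : Fin M → ℂ, (volume (kr (nu p) (fun i => co p i - hx X (nu p i)))).toReal
        ∂(PG (t / M) M) := by
    refine integral_mono ((integrable_const α).indicator hEm) (hint t M ht hM0) fun X => ?_
    by_cases hX : X ∈ E
    · rw [indicator_of_mem hX]; exact hge X hX
    · rw [indicator_of_notMem hX]; exact ENNReal.toReal_nonneg
  refine le_trans ?_ h1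
  rw [integral_indicator_const α hEm, smul_eq_mul, mul_comm ((PG (t / M) M).real E), mul_assoc]
  refine mul_le_mul_of_nonneg_left ?_ hα0.le
  have h2 := (ENNReal.ofReal_le_iff_le_toReal (measure_ne_top (PG (t / M) M) E)).1 hlow
  refine le_trans ?_ h2
  refine mul_le_mul_of_nonneg_left (Real.exp_le_exp.2 (neg_le_neg ?_)) (by norm_num)
  rw [div_le_div_iff₀ (by positivity) ht]
  have h3 : ((1 + κ) * (2 * e)) ^ 2 + 2 * η ≤ 4 * (e ^ 2 + η) := by
    have h4 : κ ^ 2 ≤ κ := by nlinarith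
    nlinarith [mul_le_mul_of_nonneg_right h4 (sq_nonneg e)]
  nlinarith

end Pool.Agent.H46.GK
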