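import Pool.Agent.H70.G.S8.R225.LP.IN
import Pool.Agent.H70.G.S8.R225.LP.FL
import Pool.Agent.H70.G.S8.R225.LP.TB

set_option autoImplicit false

/-!
# Project GK, KLB: the random loop passes near two given points
-/

namespace Pool.Agent.H46.GK

open MeasureTheory Set Filter Topology Complex ProbabilityTheory
open Pool.Agent.R225.LP
open scoped Real ENNReal

/-- a block -/
noncomputable def bl (M q : ℕ) (A : ℂ) : Fin M → ℂ := fun l => if l.val < q then A else 0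

theorem sg_bl {M : ℕ} (q r : ℕ) (hq : q ≤ M) (A : ℂ) :
    sg (bl M q A) r = ((min r q : ℕ) : ℂ) * A := by
  unfold sg bl
  have h1 : ∀ l : Fin M, (if l.val < r then (if l.val < q then A else 0) else 0) =
      if l.val < min r q then A else 0 := by
    intro l
    by_cases h : l.val < r <;> by_cases h' : l.val < q <;> simp [h, h']
  rw [Finset.sum_congr rfl fun l _ => h1 l, ← Finset.sum_filter, Finset.sum_const, nsmul_eq_mul]
  congr 2
  rw [Fin.card_filter_val_lt, min_eq_right ((min_le_right _ _).trans hq)]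

theorem ip_bl {M : ℕ} (q : ℕ) (A : ℂ) (y : Fin M → ℂ) :
    ∑ i, ip (bl M q A i) (y i) = ip A (sg y q) := by
  unfold sg
  rw [ip_sum_right]
  refine Finset.sum_congr rfl fun i _ => ?_
  unfold bl
  split_ifs <;> simp [ip]

/-- the drift -/
noncomputable def dr (M q r : ℕ) (A B C : ℂ) : Fin M → ℂ := fun l =>
  (bl M q A l + bl M r B l) + bl M M C l

theorem sg_dr {M q r : ℕ} (hq : q ≤ M) (hr : r ≤ M) (A B C : ℂ) (m : ℕ) (hm : m ≤ M) :
    sg (dr M q r A B C) m = ((min m q : ℕ) : ℂ) * A + ((min m r : ℕ) : ℂ) * B + (m : ℂ) * C := by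
  have e : dr M q r A B C = fun l => (fun l => bl M q A l + bl M r B l) l + bl M M C l := rfl
  rw [e, sg_add, sg_add, sg_bl q m hq, sg_bl r m hr, sg_bl M m le_rfl, min_eq_left hm]

theorem ip_dr {M q r : ℕ} (A B C : ℂ) (y : Fin M → ℂ) :
    ∑ i, ip (dr M q r A B C i) (y i) = ip A (sg y q) + ip B (sg y r) + ip C (sg y M) := by
  unfold dr
  simp only [ip_add_left, Finset.sum_add_distrib, ip_bl]

section drift
variable {M q r : ℕ} (h0 : 0 < q) (h1 : q < r) (h2 : r < M) (u w : ℂ)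

/-- the drift passing `u` at the time `q` and `w` at the time `r` -/
noncomputable def du (M q r : ℕ) (u w : ℂ) : Fin M → ℂ :=
  dr M q r (u / q - (w - u) / ((r : ℂ) - q)) ((w - u) / ((r : ℂ) - q) - (-w) / ((M : ℂ) - r))
    ((-w) / ((M : ℂ) - r))

include h0 h1 h2

theorem nz : (q : ℂ) ≠ 0 ∧ (r : ℂ) - q ≠ 0 ∧ (M : ℂ) - r ≠ 0 := by
  refine ⟨by exact_mod_cast h0.ne', ?_, ?_⟩
  · rw [sub_ne_zero]; exact_mod_cast h1.ne'
  · rw [sub_ne_zero]; exact_mod_cast h2.ne'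

theorem sg_du_M : sg (du M q r u w) M = 0 := by
  obtain ⟨n1, n2, n3⟩ := nz h0 h1 h2
  rw [du, sg_dr (h1.le.trans h2.le) h2.le _ _ _ M le_rfl, min_eq_right (h1.le.trans h2.le),
    min_eq_right h2.le]
  field_simp
  ring

theorem sg_du_q : sg (du M q r u w) q = u := by
  obtain ⟨n1, n2, n3⟩ := nz h0 h1 h2
  rw [du, sg_dr (h1.le.trans h2.le) h2.le _ _ _ q (h1.le.trans h2.le), min_self,
    min_eq_left h1.le]
  field_simp
  ring

theorem sg_du_r : sg (du M q r u w) r = w := by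
  obtain ⟨n1, n2, n3⟩ := nz h0 h1 h2
  rw [du, sg_dr (h1.le.trans h2.le) h2.le _ _ _ r h2.le, min_self, min_eq_right h1.le]
  field_simp
  ring

theorem mn_du : mn (du M q r u w) = 0 := by
  rw [mn, ← sg_all, sg_du_M h0 h1 h2, zero_div]

theorem gm_du (m : ℕ) : gm (du M q r u w) m = sg (du M q r u w) m := by
  have h : ce (du M q r u w) = du M q r u w := by
    funext i
    simp [ce, mn_du h0 h1 h2]
  rw [gm, h]

theorem ip_du (x : Fin M → ℂ) : ∑ i, ip (du M q r u w i) (x i) =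
    ip (u / q - (w - u) / ((r : ℂ) - q)) (gm x q) +
      ip ((w - u) / ((r : ℂ) - q) - (-w) / ((M : ℂ) - r)) (gm x r) := by
  have hM : 0 < M := h0.trans (h1.trans h2)
  have h3 : ∑ i, ip (du M q r u w i) (x i) = ∑ i, ip (du M q r u w i) (ce x i) := by
    have h4 : ∑ i, ip (du M q r u w i) (mn x) = 0 := by
      rw [← ip_sum_left, ← sg_all, sg_du_M h0 h1 h2, ip_zero_left]
    have h5 : ∑ i, ip (du M q r u w i) (ce x i) = ∑ i, ip (du M q r u w i) (x i) -
        ∑ i, ip (du M q r u w i) (mn x) := by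
      rw [← Finset.sum_sub_distrib]
      refine Finset.sum_congr rfl fun i _ => ?_
      rw [ce, ip_sub_right]
    rw [h5, h4, sub_zero]
  rw [h3, du, ip_dr]
  have h6 : sg (ce x) M = 0 := gm_all hM x
  rw [h6, ip_zero_right, add_zero]
  rfl

theorem norm_du : ∑ i, ‖du M q r u w i‖ ^ 2 =
    ‖u‖ ^ 2 / q + ‖w - u‖ ^ 2 / ((r : ℝ) - q) + ‖w‖ ^ 2 / ((M : ℝ) - r) := by
  have e : ∀ i, ‖du M q r u w i‖ ^ 2 = ip (du M q r u w i) (du M q r u w i) := fun i =>
    (ip_self _).symm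
  rw [Finset.sum_congr rfl fun i _ => e i, ip_du h0 h1 h2 u w (du M q r u w), gm_du h0 h1 h2,
    gm_du h0 h1 h2, sg_du_q h0 h1 h2, sg_du_r h0 h1 h2]
  rw [← ip_self, ← ip_self, ← ip_self]
  have d1 : u / (q : ℂ) = (((q : ℝ)⁻¹ : ℝ) : ℂ) * u := by push_cast; ring
  have d2 : (w - u) / ((r : ℂ) - q) = ((((r : ℝ) - q)⁻¹ : ℝ) : ℂ) * (w - u) := by push_cast; ring
  have d3 : (-w) / ((M : ℂ) - r) = ((((M : ℝ) - r)⁻¹ : ℝ) : ℂ) * (-w) := by push_cast; ring
  rw [d1, d2, d3]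
  simp only [ip_sub_left, ip_smul_left, ip_sub_right, ip_neg_left]
  have c1 : ip w u = ip u w := by simp [ip]; ring
  rw [c1]
  ring

end drift

/-- loops with `mx X < δ` have probability at least one half -/
theorem half {M : ℕ} {s δ : ℝ} (hM : 0 < M) (hs : 0 < s) (hδ : 0 < δ)
    (ht : M * s ≤ δ ^ 2 / 96) : ENNReal.ofReal (1 / 2) ≤ PG s M {X | mx X < δ} := by
  have hM' : (0 : ℝ) < M := by exact_mod_cast hM
  have := PG_prob hs M
  have hm : MeasurableSet {X : Fin M → ℂ | mx X < δ} :=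
    (isOpen_lt (mx_cont hM) continuous_const).measurableSet
  have h1 := mx_tail fl hM hs hδ.le
  have h2 : {X : Fin M → ℂ | mx X < δ}ᶜ = {X | δ ≤ mx X} := by
    ext X; simp
  have h3 : PG s M {X : Fin M → ℂ | mx X < δ}ᶜ ≤ ENNReal.ofReal (1 / 2) := by
    rw [h2]
    refine h1.trans (ENNReal.ofReal_le_ofReal ?_)
    have h4 : (3 : ℝ) ≤ 1 / 32 * δ ^ 2 / (M * s) := by
      rw [le_div_iff₀ (by positivity)]
      linarith
    have h5 : Real.exp (-(1 / 32 * δ ^ 2 / (M * s))) ≤ 1 / 16 := by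
      calc Real.exp (-(1 / 32 * δ ^ 2 / (M * s))) ≤ Real.exp (-3) :=
            Real.exp_le_exp.2 (by linarith)
        _ = 1 / Real.exp 3 := by rw [Real.exp_neg, one_div]
        _ ≤ 1 / 16 := one_div_le_one_div_of_le (by norm_num) exp_three
    linarith
  have h6 := prob_compl_eq_one_sub (μ := PG s M) hm
  have h7 : PG s M {X : Fin M → ℂ | mx X < δ} = 1 - PG s M {X : Fin M → ℂ | mx X < δ}ᶜ := by
    rw [h6, ENNReal.sub_sub_cancel ENNReal.one_ne_top prob_le_one]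
  rw [h7]
  have h8 : ENNReal.ofReal (1 / 2) = 1 - ENNReal.ofReal (1 / 2) := by
    rw [← ENNReal.ofReal_one, ← ENNReal.ofReal_sub _ (by norm_num)]
    norm_num
  calc ENNReal.ofReal (1 / 2) = 1 - ENNReal.ofReal (1 / 2) := h8
    _ ≤ _ := tsub_le_tsub_left h3 _

/-- the event -/
def Ee (M q r : ℕ) (u w : ℂ) (δ : ℝ) : Set (Fin M → ℂ) := {X | ‖gm X q - u‖ ≤ δ ∧ ‖gm X r - w‖ ≤ δ}

theorem Ee_meas (M q r : ℕ) (u w : ℂ) (δ : ℝ) : MeasurableSet (Ee M q r u w δ) := by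
  have h : ∀ (m : ℕ) (v : ℂ), MeasurableSet {X : Fin M → ℂ | ‖gm X m - v‖ ≤ δ} := fun m v =>
    (isClosed_le ((gm_cont m).sub continuous_const).norm continuous_const).measurableSet
  exact (h q u).inter (h r w)

/-- the lower bound for given times -/
theorem low {M q r : ℕ} (h0 : 0 < q) (h1 : q < r) (h2 : r < M) (u w : ℂ) {s δ K : ℝ} (hs : 0 < s)
    (hδ : 0 < δ) (ht : M * s ≤ δ ^ 2 / 96)
    (hK : 2 * δ * (‖u‖ / q + 2 * (‖w - u‖ / ((r : ℝ) - q)) + ‖w‖ / ((M : ℝ) - r)) +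
      (‖u‖ ^ 2 / q + ‖w - u‖ ^ 2 / ((r : ℝ) - q) + ‖w‖ ^ 2 / ((M : ℝ) - r)) ≤ K) :
    ENNReal.ofReal (1 / 2 * Real.exp (-(K / (4 * s)))) ≤ PG s M (Ee M q r u w δ) := by
  have hM : 0 < M := h0.trans (h1.trans h2)
  have hA := half hM hs hδ ht
  have hm : MeasurableSet {X : Fin M → ℂ | mx X < δ} :=
    (isOpen_lt (mx_cont hM) continuous_const).measurableSet
  have e1 : PG s M (Ee M q r u w δ) = ∫⁻ x, (Ee M q r u w δ).indicator 1 x ∂(PG s M) := by
    rw [lintegral_indicator_one (Ee_meas M q r u w δ)]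
  rw [e1, shift_PG hs M (du M q r u w) (measurable_one.indicator (Ee_meas M q r u w δ))]
  have hq' : (0 : ℝ) < q := by exact_mod_cast h0
  have hr' : (0 : ℝ) < (r : ℝ) - q := by rw [sub_pos]; exact_mod_cast h1
  have hM' : (0 : ℝ) < (M : ℝ) - r := by rw [sub_pos]; exact_mod_cast h2
  have key : ∀ x : Fin M → ℂ, ({X : Fin M → ℂ | mx X < δ}).indicator
      (fun _ => ENNReal.ofReal (Real.exp (-(K / (4 * s))))) x ≤
      ENNReal.ofReal (Real.exp (-((2 * ∑ i, ip (du M q r u w i) (x i) +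
      ∑ i, ‖du M q r u w i‖ ^ 2) / (4 * s)))) *
        (Ee M q r u w δ).indicator 1 (fun i => x i + du M q r u w i) := by
    intro x
    by_cases hx : x ∈ {X : Fin M → ℂ | mx X < δ}
    · have hx1 : ‖gm x q‖ ≤ δ := ((mx_spec hM x).2 q (h1.trans h2)).trans (le_of_lt hx)
      have hx2 : ‖gm x r‖ ≤ δ := ((mx_spec hM x).2 r h2).trans (le_of_lt hx)
      have hx' : (fun i => x i + du M q r u w i) ∈ Ee M q r u w δ := by
        refine ⟨?_, ?_⟩
        · rw [gm_add, gm_du h0 h1 h2, sg_du_q h0 h1 h2, add_sub_cancel_right]; exact hx1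
        · rw [gm_add, gm_du h0 h1 h2, sg_du_r h0 h1 h2, add_sub_cancel_right]; exact hx2
      rw [indicator_of_mem hx, indicator_of_mem hx', Pi.one_apply, mul_one]
      refine ENNReal.ofReal_le_ofReal (Real.exp_le_exp.2 ?_)
      rw [ip_du h0 h1 h2, norm_du h0 h1 h2]
      refine neg_le_neg (div_le_div_of_nonneg_right ?_ (by positivity))
      refine le_trans ?_ hK
      have n1 : ‖u / (q : ℂ)‖ = ‖u‖ / q := by rw [norm_div, Complex.norm_natCast]
      have n2 : ‖(w - u) / ((r : ℂ) - q)‖ = ‖w - u‖ / ((r : ℝ) - q) := by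
        rw [norm_div]
        congr 1
        have : ((r : ℂ) - q) = (((r : ℝ) - q : ℝ) : ℂ) := by push_cast; ring
        rw [this, Complex.norm_real, Real.norm_eq_abs, abs_of_pos hr']
      have n3 : ‖(-w) / ((M : ℂ) - r)‖ = ‖w‖ / ((M : ℝ) - r) := by
        rw [norm_div, norm_neg]
        congr 1
        have : ((M : ℂ) - r) = (((M : ℝ) - r : ℝ) : ℂ) := by push_cast; ring
        rw [this, Complex.norm_real, Real.norm_eq_abs, abs_of_pos hM']
      have m1 : ip (u / q - (w - u) / ((r : ℂ) - q)) (gm x q) ≤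
          (‖u‖ / q + ‖w - u‖ / ((r : ℝ) - q)) * δ := by
        refine ((le_abs_self _).trans (ip_le _ _)).trans (mul_le_mul ?_ hx1 (norm_nonneg _)
          (by positivity))
        refine (norm_sub_le _ _).trans (le_of_eq ?_)
        rw [n1, n2]
      have m2 : ip ((w - u) / ((r : ℂ) - q) - (-w) / ((M : ℂ) - r)) (gm x r) ≤
          (‖w - u‖ / ((r : ℝ) - q) + ‖w‖ / ((M : ℝ) - r)) * δ := by
        refine ((le_abs_self _).trans (ip_le _ _)).trans (mul_le_mul ?_ hx2 (norm_nonneg _)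
          (by positivity))
        refine (norm_sub_le _ _).trans (le_of_eq ?_)
        rw [n2, n3]
      linarith
    · rw [indicator_of_notMem hx]
      exact zero_le
  refine le_trans ?_ (lintegral_mono key)
  rw [lintegral_indicator_const hm, mul_comm (1 / 2 : ℝ), ENNReal.ofReal_mul (Real.exp_pos _).le]
  exact mul_le_mul_right hA _

/-- the loop passes near two given points -/
theorem near (u w : ℂ) (δ η : ℝ) (hδ : 0 < δ) (hη : 0 < η) : ∃ t₀ : ℝ, 0 < t₀ ∧ ∀ t : ℝ, 0 < t →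
    t < t₀ → ∀ᶠ M : ℕ in atTop, ∃ q r : ℕ, q < M ∧ r < M ∧
      ENNReal.ofReal (1 / 2 * Real.exp (-(((‖u‖ + ‖w - u‖ + ‖w‖) ^ 2 + η) / (4 * t)))) ≤
        PG (t / M) M (Ee M q r u w δ) := by
  set L : ℝ := ‖u‖ + ‖w - u‖ + ‖w‖ with hL
  have hL0 : 0 ≤ L := by positivity
  -- the weights
  set θ : ℝ := η / (4 * (3 * L + 1)) with hθ
  have hθ0 : 0 < θ := by positivity
  have hθL : 3 * θ * L < η / 4 := by
    have : θ * (3 * L + 1) = η / 4 := by rw [hθ]; field_simp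
    nlinarith
  set D : ℝ := L + 3 * θ with hD
  have hD0 : 0 < D := by positivity
  set a : ℝ := (‖u‖ + θ) / D with ha
  set b : ℝ := (‖w - u‖ + θ) / D with hb
  set c : ℝ := (‖w‖ + θ) / D with hc
  have ha0 : 0 < a := by positivity
  have hb0 : 0 < b := by positivity
  have hc0 : 0 < c := by positivity
  have habc : a + b + c = 1 := by
    rw [ha, hb, hc, ← add_div, ← add_div, div_eq_one_iff_eq hD0.ne']
    rw [hD, hL]; ring
  have hbd : ∀ x : ℝ, 0 ≤ x → x ^ 2 / ((x + θ) / D) ≤ D * x := by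
    intro x hx
    rw [div_div_eq_mul_div, div_le_iff₀ (by positivity)]
    nlinarith [mul_nonneg (mul_nonneg hx hD0.le) hθ0.le]
  have hsq : ‖u‖ ^ 2 / a + ‖w - u‖ ^ 2 / b + ‖w‖ ^ 2 / c < L ^ 2 + η / 4 := by
    have e1 := hbd ‖u‖ (norm_nonneg _)
    have e2 := hbd ‖w - u‖ (norm_nonneg _)
    have e3 := hbd ‖w‖ (norm_nonneg _)
    have e4 : D * ‖u‖ + D * ‖w - u‖ + D * ‖w‖ = L ^ 2 + 3 * θ * L := by
      rw [← mul_add, ← mul_add, ← hL, hD]; ring
    rw [← ha] at e1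
    rw [← hb] at e2
    rw [← hc] at e3
    linarith
  set K₁ : ℝ := ‖u‖ / a + 2 * (‖w - u‖ / b) + ‖w‖ / c with hK₁
  have hK₁0 : 0 ≤ K₁ := by positivity
  set δ' : ℝ := min δ (η / (4 * (K₁ + 1))) with hδ'
  have hδ'0 : 0 < δ' := lt_min hδ (by positivity)
  have hδK : 2 * δ' * (K₁ + 1) ≤ η / 2 := by
    have h1 : δ' ≤ η / (4 * (K₁ + 1)) := min_le_right _ _
    rw [le_div_iff₀ (by positivity)] at h1
    linarith
  refine ⟨δ' ^ 2 / 96, by positivity, fun t ht htt => ?_⟩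
  -- the times
  set q : ℕ → ℕ := fun M => ⌊a * (M : ℝ)⌋₊ with hq
  set r : ℕ → ℕ := fun M => ⌊(a + b) * (M : ℝ)⌋₊ with hr
  have lq : Tendsto (fun M : ℕ => (q M : ℝ) / M) atTop (𝓝 a) :=
    (tendsto_nat_floor_mul_div_atTop ha0.le).comp tendsto_natCast_atTop_atTop
  have lr : Tendsto (fun M : ℕ => (r M : ℝ) / M) atTop (𝓝 (a + b)) :=
    (tendsto_nat_floor_mul_div_atTop (add_pos ha0 hb0).le).comp tendsto_natCast_atTop_atTop
  have l2 : Tendsto (fun M : ℕ => (r M : ℝ) / M - (q M : ℝ) / M) atTop (𝓝 b) := by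
    have := lr.sub lq
    rwa [add_sub_cancel_left] at this
  have l3 : Tendsto (fun M : ℕ => 1 - (r M : ℝ) / M) atTop (𝓝 c) := by
    have := (tendsto_const_nhds (x := (1 : ℝ))).sub lr
    have e : 1 - (a + b) = c := by linarith
    rwa [e] at this
  have lK : Tendsto (fun M : ℕ => ‖u‖ / ((q M : ℝ) / M) +
      2 * (‖w - u‖ / ((r M : ℝ) / M - (q M : ℝ) / M)) + ‖w‖ / (1 - (r M : ℝ) / M)) atTop (𝓝 K₁) :=
    ((tendsto_const_nhds.div lq ha0.ne').add ((tendsto_const_nhds.div l2 hb0.ne').const_mul 2)).add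
      (tendsto_const_nhds.div l3 hc0.ne')
  have lS : Tendsto (fun M : ℕ => ‖u‖ ^ 2 / ((q M : ℝ) / M) +
      ‖w - u‖ ^ 2 / ((r M : ℝ) / M - (q M : ℝ) / M) + ‖w‖ ^ 2 / (1 - (r M : ℝ) / M)) atTop
      (𝓝 (‖u‖ ^ 2 / a + ‖w - u‖ ^ 2 / b + ‖w‖ ^ 2 / c)) :=
    ((tendsto_const_nhds.div lq ha0.ne').add (tendsto_const_nhds.div l2 hb0.ne')).add
      (tendsto_const_nhds.div l3 hc0.ne')
  filter_upwards [lq.eventually (lt_mem_nhds ha0), l2.eventually (lt_mem_nhds hb0),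
    l3.eventually (lt_mem_nhds hc0), lK.eventually (gt_mem_nhds (lt_add_one K₁)),
    lS.eventually (gt_mem_nhds hsq), eventually_gt_atTop 0] with M e1 e2 e3 e4 e5 e6
  have hM : (0 : ℝ) < M := by exact_mod_cast e6
  have k0 : 0 < q M := by
    have : (0 : ℝ) < q M := (div_pos_iff_of_pos_right hM).1 e1
    exact_mod_cast this
  have k1 : q M < r M := by
    have : (q M : ℝ) < r M := by
      have h : (q M : ℝ) / M < (r M : ℝ) / M := by linarith
      exact (div_lt_div_iff_of_pos_right hM).1 h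
    exact_mod_cast this
  have k2 : r M < M := by
    have : (r M : ℝ) < M := by
      have h : (r M : ℝ) / M < 1 := by linarith
      exact (div_lt_one hM).1 h
    exact_mod_cast this
  refine ⟨q M, r M, k1.trans k2, k2, ?_⟩
  have hs : 0 < t / M := by positivity
  have p1 : (0 : ℝ) < q M := by exact_mod_cast k0
  have p2 : (0 : ℝ) < (r M : ℝ) - q M := by rw [sub_pos]; exact_mod_cast k1
  have p3 : (0 : ℝ) < (M : ℝ) - r M := by rw [sub_pos]; exact_mod_cast k2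
  have sc : ∀ x y z : ℝ, x / ((q M : ℝ) / M) + y / ((r M : ℝ) / M - (q M : ℝ) / M) +
      z / (1 - (r M : ℝ) / M) = M * (x / q M + y / ((r M : ℝ) - q M) + z / ((M : ℝ) - r M)) := by
    intro x y z
    have h1 : (r M : ℝ) / M - (q M : ℝ) / M = ((r M : ℝ) - q M) / M := by rw [sub_div]
    have h2 : 1 - (r M : ℝ) / M = ((M : ℝ) - r M) / M := by
      rw [sub_div, div_self hM.ne']
    rw [h1, h2]
    field_simp
  have s1 : M * (‖u‖ / q M + 2 * (‖w - u‖ / ((r M : ℝ) - q M)) + ‖w‖ / ((M : ℝ) - r M)) <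
      K₁ + 1 := by
    have := sc ‖u‖ (2 * ‖w - u‖) ‖w‖
    have h' : (2 * ‖w - u‖) / ((r M : ℝ) / M - (q M : ℝ) / M) =
      2 * (‖w - u‖ / ((r M : ℝ) / M - (q M : ℝ) / M)) := by ring
    rw [h'] at this
    rw [this] at e4
    have h'' : (2 * ‖w - u‖) / ((r M : ℝ) - q M) = 2 * (‖w - u‖ / ((r M : ℝ) - q M)) := by ring
    rw [h''] at e4
    exact e4
  have s2 := e5
  rw [sc] at s2
  have hlow := low k0 k1 k2 u w (s := t / M) (δ := δ') (K := (L ^ 2 + η) / M) hs hδ'0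
    (by
      have : (M : ℝ) * (t / M) = t := by field_simp
      rw [this]; exact htt.le)
    (by
      rw [le_div_iff₀ hM]
      have h1 : 2 * δ' * (M * (‖u‖ / q M + 2 * (‖w - u‖ / ((r M : ℝ) - q M)) +
          ‖w‖ / ((M : ℝ) - r M))) ≤ 2 * δ' * (K₁ + 1) :=
        mul_le_mul_of_nonneg_left s1.le (by positivity)
      nlinarith)
  have e7 : (L ^ 2 + η) / M / (4 * (t / M)) = (L ^ 2 + η) / (4 * t) := by field_simp
  rw [e7] at hlow
  refine hlow.trans (measure_mono ?_)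
  rintro X ⟨h1, h2⟩
  exact ⟨h1.trans (min_le_left _ _), h2.trans (min_le_left _ _)⟩

end Pool.Agent.H46.GK
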